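import Mathlib

/-!
# Gluing MO-mappings: the planar counterexample (copy of the helpers of `Pool/Agent/S12748.lean`
by helper89, with the target space `Z` an arbitrary Hausdorff space)

Two sheets over `[0,3]`, each a full segment over `[1,2]` and a single oscillating point outside of
it; on the left the oscillations force the decomposition `s ~ -s` at `y = 1`, on the right they
force `s ~ s - 3` at `y = 2`, and no continuous family of decompositions joins the two.
-/

set_option autoImplicit false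

namespace Pool.Agent.Helper43.Own.Glue

open Function
open Set Filter Topology

/-- left oscillating function -/
noncomputable def a (y : ℝ) : ℝ := (3 + Real.sin (1 / (1 - y))) / 2
/-- right oscillating function -/
noncomputable def c (y : ℝ) : ℝ := (3 + Real.sin (1 / (y - 2))) / 2
/-- continuous extension of `s ↦ s` on `[1,2]` and `s ↦ s + 3` on `[-2,-1]` -/
noncomputable def q (s : ℝ) : ℝ := s + 3 * max 0 (min 1 ((1 - s) / 2))

lemma q_pos {s : ℝ} (h : 1 ≤ s) : q s = s := by
  unfold q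
  have : min 1 ((1 - s) / 2) ≤ 0 := le_trans (min_le_right _ _) (by linarith)
  rw [max_eq_left this]; ring

lemma q_neg {s : ℝ} (h : s ≤ -1) : q s = s + 3 := by
  unfold q
  have : min 1 ((1 - s) / 2) = 1 := min_eq_left (by linarith)
  rw [this, max_eq_right (by norm_num)]; ring

lemma continuous_q : Continuous q := by
  unfold q; fun_prop

lemma a_mem (y : ℝ) : 1 ≤ a y ∧ a y ≤ 2 := by
  unfold a
  constructor
  · linarith [Real.neg_one_le_sin (1 / (1 - y))]
  · linarith [Real.sin_le_one (1 / (1 - y))]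

lemma c_mem (y : ℝ) : 1 ≤ c y ∧ c y ≤ 2 := by
  unfold c
  constructor
  · linarith [Real.neg_one_le_sin (1 / (y - 2))]
  · linarith [Real.sin_le_one (1 / (y - 2))]

lemma a_cont : ContinuousOn a (Iio 1) := by
  unfold a
  intro y hy
  have : (1 - y) ≠ 0 := by
    have : y < 1 := hy
    linarith
  apply ContinuousAt.continuousWithinAt
  fun_prop (disch := assumption)

lemma c_cont : ContinuousOn c (Ioi 2) := by
  unfold c
  intro y hy
  have : (y - 2) ≠ 0 := by
    have : 2 < y := hy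
    linarith
  apply ContinuousAt.continuousWithinAt
  fun_prop (disch := assumption)

/-- The space `X`, a subset of the plane. -/
def XS : Set (ℝ × ℝ) := {p | (0 ≤ p.1 ∧ p.1 ≤ 3) ∧ (1 ≤ |p.2| ∧ |p.2| ≤ 2) ∧
  (p.1 < 1 → |p.2| = a p.1) ∧ (2 < p.1 → q p.2 = c p.1)}

lemma isClosed_XS : IsClosed XS := by
  have h1 : IsClosed {p : ℝ × ℝ | 0 ≤ p.1 ∧ p.1 ≤ 3} :=
    (isClosed_le continuous_const continuous_fst).inter
      (isClosed_le continuous_fst continuous_const)
  have h2 : IsClosed {p : ℝ × ℝ | 1 ≤ |p.2| ∧ |p.2| ≤ 2} :=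
    (isClosed_le continuous_const (continuous_abs.comp continuous_snd)).inter
      (isClosed_le (continuous_abs.comp continuous_snd) continuous_const)
  have h3 : IsClosed {p : ℝ × ℝ | p.1 < 1 → |p.2| = a p.1} := by
    rw [← isOpen_compl_iff]
    have ho : IsOpen (Prod.fst ⁻¹' (Iio 1) : Set (ℝ × ℝ)) := isOpen_Iio.preimage continuous_fst
    have hc : ContinuousOn (fun p : ℝ × ℝ => |p.2| - a p.1) (Prod.fst ⁻¹' (Iio 1)) := by
      apply ContinuousOn.sub
      · fun_prop
      · exact a_cont.comp continuousOn_fst (fun p hp => hp)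
    have := hc.isOpen_inter_preimage ho (isOpen_compl_singleton (x := (0:ℝ)))
    convert this using 1
    ext p
    simp [sub_eq_zero]
  have h4 : IsClosed {p : ℝ × ℝ | 2 < p.1 → q p.2 = c p.1} := by
    rw [← isOpen_compl_iff]
    have ho : IsOpen (Prod.fst ⁻¹' (Ioi 2) : Set (ℝ × ℝ)) := isOpen_Ioi.preimage continuous_fst
    have hc : ContinuousOn (fun p : ℝ × ℝ => q p.2 - c p.1) (Prod.fst ⁻¹' (Ioi 2)) := by
      apply ContinuousOn.sub
      · exact (continuous_q.comp continuous_snd).continuousOn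
      · exact c_cont.comp continuousOn_fst (fun p hp => hp)
    have := hc.isOpen_inter_preimage ho (isOpen_compl_singleton (x := (0:ℝ)))
    convert this using 1
    ext p
    simp [sub_eq_zero]
  exact h1.inter (h2.inter (h3.inter h4))

lemma isCompact_XS : IsCompact XS := by
  have hK : IsCompact (Icc (0:ℝ) 3 ×ˢ Icc (-2:ℝ) 2) := isCompact_Icc.prod isCompact_Icc
  apply hK.of_isClosed_subset isClosed_XS
  rintro p ⟨h1, h2, -⟩
  exact ⟨h1, abs_le.1 h2.2⟩

instance : CompactSpace XS := isCompact_iff_compactSpace.1 isCompact_XS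

/-- the map `f : X → Y`, `Y = [0,3]`. -/
def f (x : XS) : Icc (0:ℝ) 3 := ⟨x.1.1, x.2.1⟩

lemma continuous_f : Continuous f := by
  unfold f; fun_prop

lemma mem_XS_neg_left {y s : ℝ} (hy : y ≤ 2) : (y, -s) ∈ XS ↔ (y, s) ∈ XS := by
  unfold XS
  simp only [mem_ofPred_eq, abs_neg]
  constructor
  · rintro ⟨h1, h2, h3, -⟩
    exact ⟨h1, h2, h3, fun h => absurd h (not_lt.2 hy)⟩
  · rintro ⟨h1, h2, h3, -⟩
    exact ⟨h1, h2, h3, fun h => absurd h (not_lt.2 hy)⟩

lemma mid_mem {y s : ℝ} (h1 : 1 ≤ y) (h2 : y ≤ 2) (hs : 1 ≤ |s|) (hs' : |s| ≤ 2) : (y, s) ∈ XS :=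
  ⟨⟨by simp; linarith, by simp; linarith⟩, ⟨hs, hs'⟩, fun h => absurd h (not_lt.2 h1),
    fun h => absurd h (not_lt.2 h2)⟩

lemma surjective_f : Surjective f := by
  rintro ⟨y, h0, h3⟩
  have key : ∃ s, (y, s) ∈ XS := by
    by_cases h1 : y < 1
    · refine ⟨a y, ⟨h0, h3⟩, ?_, ?_, ?_⟩
      · simp only
        rw [abs_of_nonneg (by linarith [(a_mem y).1])]
        exact a_mem y
      · intro _
        simp only
        rw [abs_of_nonneg (by linarith [(a_mem y).1])]
      · intro h; simp at h; linarith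
    · by_cases h2 : 2 < y
      · refine ⟨c y, ⟨h0, h3⟩, ?_, ?_, ?_⟩
        · simp only
          rw [abs_of_nonneg (by linarith [(c_mem y).1])]
          exact c_mem y
        · intro h; simp at h; linarith
        · intro _
          simp only
          rw [q_pos (c_mem y).1]
      · refine ⟨1, mid_mem (by linarith) (by linarith) (by norm_num) (by norm_num)⟩
  obtain ⟨s, hs⟩ := key
  exact ⟨⟨(y, s), hs⟩, rfl⟩


/-- general local lemma -/
lemma localMO (C : Set (Icc (0:ℝ) 3)) (hC : IsClosed C) (Q τ : ℝ → ℝ)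
    (hQc : Continuous Q) (hτc : Continuous τ)
    (hQpos : ∀ s, 1 ≤ s → s ≤ 2 → Q s = s)
    (hQneg : ∀ s, -2 ≤ s → s ≤ -1 → 1 ≤ Q s ∧ Q s ≤ 2 ∧ τ (Q s) = s)
    (hτ : ∀ s, 1 ≤ s → s ≤ 2 → -2 ≤ τ s ∧ τ s ≤ -1 ∧ Q (τ s) = s)
    (hsheet : ∀ y : Icc (0:ℝ) 3, y ∈ C → ∀ s, -2 ≤ s → s ≤ -1 →
      ((y.1, s) ∈ XS ↔ (y.1, Q s) ∈ XS)) :
    ∃ (Z : Type) (_ : MetricSpace Z) (_ : CompactSpace Z)
          (h : ↥(f ⁻¹' C) → Z) (g : Z → ↥C),
          Continuous h ∧ IsOpenMap h ∧ Surjective h ∧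
          Continuous g ∧ Surjective g ∧ (∀ y, IsConnected (g ⁻¹' {y})) ∧
          ∀ x : ↥(f ⁻¹' C), ((g (h x) : ↥C) : Icc (0:ℝ) 3) = f x := by
  -- the positive sheet
  let Z : Type := {x : ↥(f ⁻¹' C) // 0 < x.1.1.2}
  have : CompactSpace ↥(f ⁻¹' C) :=
    isCompact_iff_compactSpace.1 ((hC.preimage continuous_f).isCompact)
  have hrange : ∀ x : XS, (1 ≤ x.1.2 ∧ x.1.2 ≤ 2) ∨ (-2 ≤ x.1.2 ∧ x.1.2 ≤ -1) := by
    intro x
    have h1 := x.2.2.1.1
    have h2 := x.2.2.1.2
    rcases le_total 0 x.1.2 with h | h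
    · left; rw [abs_of_nonneg h] at h1 h2; exact ⟨h1, h2⟩
    · right; rw [abs_of_nonpos h] at h1 h2; constructor <;> linarith
  have hQmem : ∀ x : ↥(f ⁻¹' C), (x.1.1.1, Q x.1.1.2) ∈ XS ∧ 0 < Q x.1.1.2 := by
    intro x
    rcases hrange x.1 with h | h
    · rw [hQpos _ h.1 h.2]
      exact ⟨x.1.2, by linarith [h.1]⟩
    · exact ⟨(hsheet (f x.1) x.2 _ h.1 h.2).1 x.1.2, by linarith [(hQneg _ h.1 h.2).1]⟩
  let h : ↥(f ⁻¹' C) → Z := fun x => ⟨⟨⟨(x.1.1.1, Q x.1.1.2), (hQmem x).1⟩, x.2⟩, (hQmem x).2⟩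
  let g : Z → C := fun z => ⟨f z.1.1, z.1.2⟩
  have hpos : ∀ z : Z, 1 ≤ z.1.1.1.2 ∧ z.1.1.1.2 ≤ 2 := by
    intro z
    rcases hrange z.1.1 with h | h
    · exact h
    · exact absurd z.2 (by linarith [h.2])
  have hτmem : ∀ z : Z, (z.1.1.1.1, τ z.1.1.1.2) ∈ XS := by
    intro z
    obtain ⟨h1, h2⟩ := hpos z
    obtain ⟨h3, h4, h5⟩ := hτ _ h1 h2
    apply (hsheet (f z.1.1) z.1.2 _ h3 h4).2
    rw [h5]
    exact z.1.1.2
  let σ : Z → ↥(f ⁻¹' C) := fun z => ⟨⟨(z.1.1.1.1, τ z.1.1.1.2), hτmem z⟩, z.1.2⟩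
  have hcont : Continuous h := by
    apply Continuous.subtype_mk
    apply Continuous.subtype_mk
    apply Continuous.subtype_mk
    fun_prop
  have e00 : Continuous (fun z : Z => z.1) := continuous_subtype_val
  have e0 : Continuous (fun z : Z => z.1.1.1) :=
    continuous_subtype_val.comp (continuous_subtype_val.comp e00)
  have hσcont : Continuous σ := by
    apply Continuous.subtype_mk
    apply Continuous.subtype_mk
    exact (continuous_fst.comp e0).prodMk (hτc.comp (continuous_snd.comp e0))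
  have hgcont : Continuous g := by
    have e1 : Continuous (fun z : Z => z.1) := continuous_subtype_val
    exact Continuous.subtype_mk (continuous_f.comp (continuous_subtype_val.comp e1)) (fun z => z.1.2)
  have hval : ∀ z : Z, h z.1 = z := by
    intro z
    apply Subtype.ext; apply Subtype.ext; apply Subtype.ext
    apply Prod.ext
    · rfl
    · exact hQpos _ (hpos z).1 (hpos z).2
  have hσ : ∀ z : Z, h (σ z) = z := by
    intro z
    apply Subtype.ext; apply Subtype.ext; apply Subtype.ext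
    apply Prod.ext
    · rfl
    · exact (hτ _ (hpos z).1 (hpos z).2).2.2
  have hcover : ∀ x, x = (h x).1 ∨ x = σ (h x) := by
    intro x
    rcases hrange x.1 with h1 | h1
    · left
      apply Subtype.ext; apply Subtype.ext
      apply Prod.ext
      · rfl
      · exact (hQpos _ h1.1 h1.2).symm
    · right
      apply Subtype.ext; apply Subtype.ext
      apply Prod.ext
      · rfl
      · exact ((hQneg _ h1.1 h1.2).2.2).symm
  have hsurj : Surjective h := fun z => ⟨z.1, hval z⟩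
  have hopen : IsOpenMap h := by
    intro U hU
    have : h '' U = (fun z : Z => z.1) ⁻¹' U ∪ σ ⁻¹' U := by
      ext z
      constructor
      · rintro ⟨x, hx, rfl⟩
        rcases hcover x with h1 | h1
        · left; show (h x).1 ∈ U; rw [← h1]; exact hx
        · right; show σ (h x) ∈ U; rw [← h1]; exact hx
      · rintro (hz | hz)
        · exact ⟨z.1, hz, hval z⟩
        · exact ⟨σ z, hz, hσ z⟩
    rw [this]
    exact (hU.preimage continuous_subtype_val).union (hU.preimage hσcont)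
  have hZc : CompactSpace Z := hsurj.compactSpace hcont
  have hgh : ∀ x : ↥(f ⁻¹' C), ((g (h x) : ↥C) : Icc (0:ℝ) 3) = f x := fun x => rfl
  have hgsurj : Surjective g := by
    rintro ⟨y, hy⟩
    obtain ⟨x, hx⟩ := surjective_f y
    refine ⟨h ⟨x, by simpa [hx] using hy⟩, ?_⟩
    apply Subtype.ext
    rw [hgh]; exact hx
  refine ⟨Z, inferInstance, hZc, h, g, hcont, hopen, hsurj, hgcont, hgsurj, ?_, hgh⟩
  rintro ⟨y, hy⟩
  refine ⟨hgsurj ⟨y, hy⟩, ?_⟩
  -- fibres
  have hfst : ∀ z ∈ g ⁻¹' {⟨y, hy⟩}, z.1.1.1.1 = y.1 := by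
    intro z hz
    have : g z = ⟨y, hy⟩ := hz
    have h2 : f z.1.1 = y := congrArg Subtype.val this
    exact congrArg Subtype.val h2
  by_cases h1 : y.1 < 1
  · apply Set.Subsingleton.isPreconnected
    intro z hz z' hz'
    have e1 := hfst z hz
    have e2 := hfst z' hz'
    apply Subtype.ext; apply Subtype.ext; apply Subtype.ext
    apply Prod.ext
    · rw [e1, e2]
    · have k1 := z.1.1.2.2.2.1 (by rw [e1]; exact h1)
      have k2 := z'.1.1.2.2.2.1 (by rw [e2]; exact h1)
      rw [abs_of_pos z.2] at k1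
      rw [abs_of_pos z'.2] at k2
      rw [k1, k2, e1, e2]
  · by_cases h2 : 2 < y.1
    · apply Set.Subsingleton.isPreconnected
      intro z hz z' hz'
      have e1 := hfst z hz
      have e2 := hfst z' hz'
      apply Subtype.ext; apply Subtype.ext; apply Subtype.ext
      apply Prod.ext
      · rw [e1, e2]
      · have k1 := z.1.1.2.2.2.2 (by rw [e1]; exact h2)
        have k2 := z'.1.1.2.2.2.2 (by rw [e2]; exact h2)
        rw [q_pos (hpos z).1] at k1
        rw [q_pos (hpos z').1] at k2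
        rw [k1, k2, e1, e2]
    · -- middle: image of `[1,2]`
      have hmid : ∀ s : Icc (1:ℝ) 2, (y.1, s.1) ∈ XS := fun s =>
        mid_mem (by linarith) (by linarith) (by rw [abs_of_pos (by linarith [s.2.1])]; exact s.2.1)
          (by rw [abs_of_pos (by linarith [s.2.1])]; exact s.2.2)
      let ψ : Icc (1:ℝ) 2 → Z := fun s => ⟨⟨⟨(y.1, s.1), hmid s⟩, hy⟩, by
        show (0:ℝ) < s.1
        linarith [s.2.1]⟩
      have hψ : Continuous ψ := by
        apply Continuous.subtype_mk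
        apply Continuous.subtype_mk
        apply Continuous.subtype_mk
        fun_prop
      have hr : g ⁻¹' {⟨y, hy⟩} = range ψ := by
        ext z
        constructor
        · intro hz
          refine ⟨⟨z.1.1.1.2, hpos z⟩, ?_⟩
          apply Subtype.ext; apply Subtype.ext; apply Subtype.ext
          apply Prod.ext
          · exact (hfst z hz).symm
          · rfl
        · rintro ⟨s, rfl⟩
          rfl
      rw [hr]
      have : PreconnectedSpace (Icc (1:ℝ) 2) := Subtype.preconnectedSpace isPreconnected_Icc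
      exact isPreconnected_range hψ

lemma contMax {P I : Type*} [TopologicalSpace P] [TopologicalSpace I] [LinearOrder I]
    [OrderTopology I] [CompactSpace I] (R : Set (P × I)) (hR : IsClosed R)
    (hne : ∀ p, ∃ u, (p, u) ∈ R)
    (hl : ∀ p u, (p, u) ∈ R → ∀ V ∈ 𝓝 u, ∀ᶠ p' in 𝓝 p, ∃ u' ∈ V, (p', u') ∈ R) :
    ∃ M : P → I, Continuous M ∧ (∀ p, (p, M p) ∈ R) ∧ ∀ p u, (p, u) ∈ R → u ≤ M p := by
  have hmax : ∀ p, ∃ M, (p, M) ∈ R ∧ ∀ u, (p, u) ∈ R → u ≤ M := by
    intro p
    have hc : IsCompact {u | (p, u) ∈ R} :=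
      (hR.preimage (Continuous.prodMk_right p)).isCompact
    obtain ⟨M, hM⟩ := hc.exists_isGreatest (hne p)
    exact ⟨M, hM.1, fun u hu => hM.2 hu⟩
  choose M hM1 hM2 using hmax
  refine ⟨M, ?_, hM1, hM2⟩
  rw [continuous_iff_continuousAt]
  intro p
  refine tendsto_order.2 ⟨?_, ?_⟩
  · intro b hb
    filter_upwards [hl p (M p) (hM1 p) (Ioi b) (Ioi_mem_nhds hb)] with p' hp'
    obtain ⟨u', hu', hu''⟩ := hp'
    exact lt_of_lt_of_le hu' (hM2 p' u' hu'')
  · intro b hb
    have hK : IsClosed (R ∩ {x : P × I | b ≤ x.2}) :=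
      hR.inter (isClosed_le continuous_const continuous_snd)
    have hK2 := isClosedMap_fst_of_compactSpace _ hK
    have hp : p ∈ (Prod.fst '' (R ∩ {x : P × I | b ≤ x.2}))ᶜ := by
      rintro ⟨⟨p', u⟩, ⟨h1, h2⟩, rfl⟩
      exact absurd (lt_of_lt_of_le hb h2) (not_lt.2 (hM2 _ _ h1))
    filter_upwards [hK2.isOpen_compl.mem_nhds hp] with p' hp'
    by_contra hcon
    exact hp' ⟨(p', M p'), ⟨hM1 p', not_lt.1 hcon⟩, rfl⟩

lemma contMin {P I : Type*} [TopologicalSpace P] [TopologicalSpace I] [LinearOrder I]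
    [OrderTopology I] [CompactSpace I] (R : Set (P × I)) (hR : IsClosed R)
    (hne : ∀ p, ∃ u, (p, u) ∈ R)
    (hl : ∀ p u, (p, u) ∈ R → ∀ V ∈ 𝓝 u, ∀ᶠ p' in 𝓝 p, ∃ u' ∈ V, (p', u') ∈ R) :
    ∃ M : P → I, Continuous M ∧ (∀ p, (p, M p) ∈ R) ∧ ∀ p u, (p, u) ∈ R → M p ≤ u := by
  have : CompactSpace Iᵒᵈ := ‹CompactSpace I›
  exact contMax (I := Iᵒᵈ) R hR hne hl

abbrev I2 : Type := Icc (1:ℝ) 2

lemma pt_mem (e : ℝ) (he : e = 1 ∨ e = -1) (t s : I2) : (t.1, e * s.1) ∈ XS := by
  have habs : |e * s.1| = s.1 := by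
    rw [abs_mul]
    have : |e| = 1 := by rcases he with rfl | rfl <;> norm_num
    rw [this, one_mul, abs_of_pos (by linarith [s.2.1])]
  exact mid_mem t.2.1 t.2.2 (by rw [habs]; exact s.2.1) (by rw [habs]; exact s.2.2)

/-- points of the middle part of `X` -/
def pt (e : ℝ) (he : e = 1 ∨ e = -1) (t s : I2) : XS := ⟨(t.1, e * s.1), pt_mem e he t s⟩

lemma continuous_pt (e : ℝ) (he : e = 1 ∨ e = -1) :
    Continuous (fun x : I2 × I2 => pt e he x.1 x.2) := by
  unfold pt
  apply Continuous.subtype_mk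
  fun_prop

section
variable {Z : Type*} [TopologicalSpace Z] [T2Space Z] (h : XS → Z) (g : Z → Icc (0:ℝ) 3)
  (hc : Continuous h) (ho : IsOpenMap h) (hs : Surjective h)
  (gconn : ∀ y, IsPreconnected (g ⁻¹' {y})) (hgf : ∀ x, g (h x) = f x)

omit [TopologicalSpace Z] [T2Space Z] in
include hgf in
lemma same_y {x x' : XS} (hx : h x = h x') : x.1.1 = x'.1.1 := by
  have : f x = f x' := by rw [← hgf, ← hgf, hx]
  exact congrArg Subtype.val this

include hc ho hgf in
lemma lhc (e : ℝ) (he : e = 1 ∨ e = -1) (p : I2 × I2) (u : I2)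
    (hpu : h (pt 1 (Or.inl rfl) p.1 p.2) = h (pt e he p.1 u)) (V : Set I2) (hV : V ∈ 𝓝 u) :
    ∀ᶠ p' in 𝓝 p, ∃ u' ∈ V, h (pt 1 (Or.inl rfl) p'.1 p'.2) = h (pt e he p'.1 u') := by
  rw [nhds_subtype_eq_comap, mem_comap] at hV
  obtain ⟨O, hO, hOV⟩ := hV
  obtain ⟨O', hO'O, hO'o, hO'u⟩ := mem_nhds_iff.1 hO
  let U : Set XS := {x | e * x.1.2 ∈ O' ∧ 0 < e * x.1.2}
  have hU : IsOpen U := by
    apply IsOpen.inter
    · exact hO'o.preimage (continuous_const.mul (continuous_snd.comp continuous_subtype_val))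
    · exact isOpen_lt continuous_const
        (continuous_const.mul (continuous_snd.comp continuous_subtype_val))
  have hee : e * e = 1 := by rcases he with rfl | rfl <;> norm_num
  have hmem : h (pt e he p.1 u) ∈ h '' U := by
    refine ⟨_, ⟨?_, ?_⟩, rfl⟩
    · show e * (e * u.1) ∈ O'
      rw [← mul_assoc, hee, one_mul]; exact hO'u
    · show 0 < e * (e * u.1)
      rw [← mul_assoc, hee, one_mul]; linarith [u.2.1]
  have hev : ∀ᶠ p' in 𝓝 p, h (pt 1 (Or.inl rfl) p'.1 p'.2) ∈ h '' U := by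
    apply (hc.comp (continuous_pt 1 (Or.inl rfl))).continuousAt.eventually_mem
    apply (ho U hU).mem_nhds
    show h (pt 1 (Or.inl rfl) p.1 p.2) ∈ h '' U
    rw [hpu]; exact hmem
  filter_upwards [hev] with p' hp'
  obtain ⟨x, ⟨hx1, hx2⟩, hx3⟩ := hp'
  have hy := same_y h g hgf hx3
  have habs : |x.1.2| = e * x.1.2 := by
    rcases he with rfl | rfl
    · rw [one_mul] at hx2 ⊢; exact abs_of_pos hx2
    · rw [abs_of_neg (by linarith)]; ring
  have hr := x.2.2.1
  rw [habs] at hr
  refine ⟨⟨e * x.1.2, hr⟩, hOV (hO'O hx1), ?_⟩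
  rw [← hx3]
  congr 1
  apply Subtype.ext
  apply Prod.ext
  · exact hy
  · show x.1.2 = e * (e * x.1.2)
    rw [← mul_assoc, hee, one_mul]

include hc ho gconn hgf in
lemma meets (t s : I2) : ∃ s' : I2, h (pt 1 (Or.inl rfl) t s) = h (pt (-1) (Or.inr rfl) t s') := by
  have hcl : IsClopen (h '' {x : XS | x.1.2 < 0}) := by
    constructor
    · have : {x : XS | x.1.2 < 0} = {x : XS | x.1.2 ≤ -1} := by
        ext x
        constructor
        · intro hx
          have h1 := x.2.2.1.1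
          have h2 : x.1.2 < 0 := hx
          rw [abs_of_neg h2] at h1
          show x.1.2 ≤ -1
          linarith
        · intro hx
          have h2 : x.1.2 ≤ -1 := hx
          show x.1.2 < 0
          linarith
      rw [this]
      apply IsCompact.isClosed
      apply IsCompact.image _ hc
      apply IsClosed.isCompact
      exact isClosed_le (by fun_prop) continuous_const
    · apply ho
      exact isOpen_lt (by fun_prop) continuous_const
  have hsub := (gconn (f (pt 1 (Or.inl rfl) t s))).subset_isClopen hcl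
    ⟨h (pt (-1) (Or.inr rfl) t s), by
      show g (h (pt (-1) (Or.inr rfl) t s)) = f (pt 1 (Or.inl rfl) t s)
      rw [hgf]; rfl, ⟨_, by
      show -1 * s.1 < 0
      linarith [s.2.1], rfl⟩⟩
  have hin : h (pt 1 (Or.inl rfl) t s) ∈ g ⁻¹' {f (pt 1 (Or.inl rfl) t s)} := hgf _
  obtain ⟨x, hx1, hx2⟩ := hsub hin
  have hx1' : x.1.2 < 0 := hx1
  have hr := x.2.2.1
  rw [abs_of_neg hx1'] at hr
  refine ⟨⟨-x.1.2, hr⟩, ?_⟩
  rw [← hx2]
  congr 1
  apply Subtype.ext
  apply Prod.ext
  · show x.1.1 = t.1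
    exact same_y h g hgf hx2
  · show x.1.2 = -1 * (-x.1.2)
    ring

include hs gconn hgf in
lemma fin_fiber (y : ℝ) (hfin : {w | (y, w) ∈ XS}.Finite) (x x' : XS) (hx : x.1.1 = y)
    (hx' : x'.1.1 = y) : h x = h x' := by
  by_contra hne
  have hff : f x' = f x := Subtype.ext (hx'.trans hx.symm)
  have hnt : (g ⁻¹' {f x}).Nontrivial :=
    ⟨h x, hgf x, h x', by show g (h x') = f x; rw [hgf, hff], hne⟩
  have hinf := (gconn (f x)).infinite_of_nontrivial hnt
  apply hinf
  have hfin2 : {w : XS | w.1.1 = y}.Finite := by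
    have : ((fun w : XS => w.1.2) '' {w : XS | w.1.1 = y}).Finite := by
      apply hfin.subset
      rintro _ ⟨w, hw, rfl⟩
      have hw' : w.1.1 = y := hw
      show (y, w.1.2) ∈ XS
      rw [← hw']
      exact w.2
    apply Set.Finite.of_finite_image this
    intro w hw w' hw' hww
    apply Subtype.ext
    apply Prod.ext
    · exact (show w.1.1 = y from hw).trans (show w'.1.1 = y from hw').symm
    · exact hww
  apply (hfin2.image h).subset
  intro z hz
  obtain ⟨w, rfl⟩ := hs z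
  refine ⟨w, ?_, rfl⟩
  have : f w = f x := by rw [← hgf]; exact hz
  exact (congrArg Subtype.val this).trans hx

include hc ho hgf in
lemma side (Qf : ℝ → ℝ) (hQ : Continuous Qf) (ys s : ℝ) (yn : ℕ → ℝ)
    (hyn : Tendsto yn atTop (𝓝 ys))
    (hin : ∀ n w, 1 ≤ |w| → |w| ≤ 2 → ((yn n, w) ∈ XS ↔ Qf w = s))
    (hid : ∀ n (x x' : XS), x.1.1 = yn n → x'.1.1 = yn n → h x = h x')
    (x x' : XS) (hx : x.1.1 = ys) (hx' : x'.1.1 = ys) (hxs : Qf x.1.2 = s) :
    h x = h x' ↔ Qf x'.1.2 = s := by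
  have hseq : ∀ w : XS, Qf w.1.2 = s → w.1.1 = ys →
      ∃ u : ℕ → XS, (∀ n, (u n).1.1 = yn n) ∧ Tendsto u atTop (𝓝 w) := by
    intro w hw hwy
    refine ⟨fun n => ⟨(yn n, w.1.2), (hin n _ w.2.2.1.1 w.2.2.1.2).2 hw⟩, fun n => rfl, ?_⟩
    rw [tendsto_subtype_rng]
    have e1 : Tendsto (fun n => (yn n, w.1.2)) atTop (𝓝 (ys, w.1.2)) :=
      hyn.prodMk_nhds tendsto_const_nhds
    have e2 : (ys, w.1.2) = w.1 := Prod.ext hwy.symm rfl
    rw [e2] at e1
    exact e1
  obtain ⟨u, hu1, hu2⟩ := hseq x hxs hx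
  constructor
  · intro hxx
    by_contra hne
    have hU : IsOpen {w : XS | Qf w.1.2 ≠ s} :=
      isOpen_ne_fun (hQ.comp (continuous_snd.comp continuous_subtype_val)) continuous_const
    have hmem : h x ∈ h '' {w : XS | Qf w.1.2 ≠ s} := ⟨x', hne, hxx.symm⟩
    have hev := (hc.continuousAt.tendsto.comp hu2).eventually ((ho _ hU).mem_nhds hmem)
    obtain ⟨n, hn⟩ := hev.exists
    obtain ⟨w, hw1, hw2⟩ := hn
    apply hw1
    have hy := same_y h g hgf hw2
    rw [hu1 n] at hy
    apply (hin n _ w.2.2.1.1 w.2.2.1.2).1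
    rw [← hy]; exact w.2
  · intro hx's
    obtain ⟨u', hu1', hu2'⟩ := hseq x' hx's hx'
    have e : ∀ n, h (u n) = h (u' n) := fun n => hid n _ _ (hu1 n) (hu1' n)
    have t1 := hc.continuousAt.tendsto.comp hu2
    have t2 := hc.continuousAt.tendsto.comp hu2'
    have : (h ∘ u) = (h ∘ u') := funext e
    rw [this] at t1
    exact tendsto_nhds_unique t1 t2

end

/-- times at which the oscillating functions take the value `s` -/
noncomputable def w (s : ℝ) (n : ℕ) : ℝ := Real.arcsin (2 * s - 3) + (n + 1 : ℕ) * (2 * Real.pi)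

lemma w_ge (s : ℝ) (n : ℕ) : (n : ℝ) + 1 ≤ w s n := by
  unfold w
  have h1 := Real.neg_pi_div_two_le_arcsin (2 * s - 3)
  have h2 := Real.pi_gt_three
  push_cast
  nlinarith [Nat.cast_nonneg (α := ℝ) n]

lemma sin_w {s : ℝ} (h1 : 1 ≤ s) (h2 : s ≤ 2) (n : ℕ) : Real.sin (w s n) = 2 * s - 3 := by
  unfold w
  rw [Real.sin_add_nat_mul_two_pi, Real.sin_arcsin (by linarith) (by linarith)]

lemma inv_w_tendsto (s : ℝ) : Tendsto (fun n => 1 / w s n) atTop (𝓝 0) := by
  have h1 : Tendsto (fun n : ℕ => 1 / ((n : ℝ) + 1)) atTop (𝓝 0) :=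
    tendsto_one_div_add_atTop_nhds_zero_nat
  apply squeeze_zero (fun n => ?_) (fun n => ?_) h1
  · have := w_ge s n
    have h0 : (0:ℝ) ≤ n := Nat.cast_nonneg n
    exact one_div_nonneg.2 (by linarith)
  · have := w_ge s n
    have h0 : (0:ℝ) ≤ n := Nat.cast_nonneg n
    apply one_div_le_one_div_of_le (by linarith) this

section
variable {Z : Type*} [TopologicalSpace Z] [T2Space Z] (h : XS → Z) (g : Z → Icc (0:ℝ) 3)
  (hc : Continuous h) (ho : IsOpenMap h) (hs : Surjective h)
  (gconn : ∀ y, IsPreconnected (g ⁻¹' {y})) (hgf : ∀ x, g (h x) = f x)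

include hc ho hs gconn hgf in
lemma left_iff (x x' : XS) (hx : x.1.1 = 1) (hx' : x'.1.1 = 1) :
    h x = h x' ↔ |x'.1.2| = |x.1.2| := by
  have hr := x.2.2.1
  have hyn : Tendsto (fun n => 1 - 1 / w (|x.1.2|) n) atTop (𝓝 (1:ℝ)) := by
    have := (inv_w_tendsto (|x.1.2|)).const_sub 1
    simpa using this
  have hw : ∀ n, 1 ≤ w (|x.1.2|) n := fun n => by
    have := w_ge (|x.1.2|) n
    have h0 : (0:ℝ) ≤ n := Nat.cast_nonneg n
    linarith
  have hlt : ∀ n, (1 - 1 / w (|x.1.2|) n) < 1 := fun n => by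
    have : 0 < 1 / w (|x.1.2|) n := one_div_pos.2 (by linarith [hw n])
    linarith
  have hge : ∀ n, 0 ≤ (1 - 1 / w (|x.1.2|) n) := fun n => by
    have : 1 / w (|x.1.2|) n ≤ 1 := by
      rw [div_le_one (by linarith [hw n])]; exact hw n
    linarith
  have ha : ∀ n, a (1 - 1 / w (|x.1.2|) n) = |x.1.2| := fun n => by
    unfold a
    have : 1 / (1 - (1 - 1 / w (|x.1.2|) n)) = w (|x.1.2|) n := by
      rw [sub_sub_cancel, one_div_one_div]
    rw [this, sin_w hr.1 hr.2]; ring
  have hin : ∀ n v, 1 ≤ |v| → |v| ≤ 2 →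
      (((1 - 1 / w (|x.1.2|) n : ℝ), v) ∈ XS ↔ |v| = |x.1.2|) := by
    intro n v h1 h2
    constructor
    · rintro ⟨-, -, h3, -⟩
      rw [h3 (hlt n), ha]
    · intro hv
      refine ⟨⟨hge n, by linarith [hlt n]⟩, ⟨h1, h2⟩, fun _ => ?_, fun h3 => ?_⟩
      · rw [ha]; exact hv
      · have h3' : 2 < 1 - 1 / w (|x.1.2|) n := h3
        linarith [hlt n]
  refine side h g hc ho hgf (fun v => |v|) continuous_abs 1 (|x.1.2|)
    (fun n => 1 - 1 / w (|x.1.2|) n) hyn hin ?_ x x' hx hx' rfl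
  intro n z z' hz hz'
  refine fin_fiber h g hs gconn hgf _ ?_ z z' hz hz'
  apply (Set.toFinite {|x.1.2|, -|x.1.2|}).subset
  intro v hv
  have h2 := (hin n v hv.2.1.1 hv.2.1.2).1 hv
  have := eq_or_eq_neg_of_abs_eq h2
  simpa using this

include hc ho hs gconn hgf in
lemma right_iff (x x' : XS) (hx : x.1.1 = 2) (hx' : x'.1.1 = 2) :
    h x = h x' ↔ q x'.1.2 = q x.1.2 := by
  have hr : 1 ≤ q x.1.2 ∧ q x.1.2 ≤ 2 := by
    have h1 := x.2.2.1
    rcases le_total 0 x.1.2 with h0 | h0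
    · rw [abs_of_nonneg h0] at h1
      rw [q_pos h1.1]; exact h1
    · rw [abs_of_nonpos h0] at h1
      rw [q_neg (by linarith [h1.1])]
      constructor <;> linarith [h1.1, h1.2]
  have hyn : Tendsto (fun n => 2 + 1 / w (q x.1.2) n) atTop (𝓝 (2:ℝ)) := by
    have := (inv_w_tendsto (q x.1.2)).const_add 2
    simpa using this
  have hw : ∀ n, 1 ≤ w (q x.1.2) n := fun n => by
    have := w_ge (q x.1.2) n
    have h0 : (0:ℝ) ≤ n := Nat.cast_nonneg n
    linarith
  have hlt : ∀ n, 2 < (2 + 1 / w (q x.1.2) n) := fun n => by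
    have : 0 < 1 / w (q x.1.2) n := one_div_pos.2 (by linarith [hw n])
    linarith
  have hge : ∀ n, (2 + 1 / w (q x.1.2) n) ≤ 3 := fun n => by
    have : 1 / w (q x.1.2) n ≤ 1 := by
      rw [div_le_one (by linarith [hw n])]; exact hw n
    linarith
  have ha : ∀ n, c (2 + 1 / w (q x.1.2) n) = q x.1.2 := fun n => by
    unfold c
    have : 1 / ((2 + 1 / w (q x.1.2) n) - 2) = w (q x.1.2) n := by
      rw [add_sub_cancel_left, one_div_one_div]
    rw [this, sin_w hr.1 hr.2]; ring
  have hin : ∀ n v, 1 ≤ |v| → |v| ≤ 2 →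
      (((2 + 1 / w (q x.1.2) n : ℝ), v) ∈ XS ↔ q v = q x.1.2) := by
    intro n v h1 h2
    constructor
    · rintro ⟨-, -, -, h3⟩
      rw [h3 (hlt n), ha]
    · intro hv
      refine ⟨⟨by linarith [hlt n], hge n⟩, ⟨h1, h2⟩, fun h3 => ?_, fun _ => ?_⟩
      · have h3' : 2 + 1 / w (q x.1.2) n < 1 := h3
        linarith [hlt n]
      · rw [ha]; exact hv
  refine side h g hc ho hgf q continuous_q 2 (q x.1.2)
    (fun n => 2 + 1 / w (q x.1.2) n) hyn hin ?_ x x' hx hx' rfl
  intro n z z' hz hz'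
  refine fin_fiber h g hs gconn hgf _ ?_ z z' hz hz'
  apply (Set.toFinite {q x.1.2, q x.1.2 - 3}).subset
  intro v hv
  have h2 := (hin n v hv.2.1.1 hv.2.1.2).1 hv
  have h1 := hv.2.1
  rcases le_total 0 v with h0 | h0
  · simp only [abs_of_nonneg h0] at h1
    rw [q_pos h1.1] at h2
    left; exact h2
  · simp only [abs_of_nonpos h0] at h1
    rw [q_neg (by linarith [h1.1])] at h2
    right
    show v = q x.1.2 - 3
    linarith

include hc ho hs gconn hgf in
lemma no_global : False := by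
  let one : I2 := ⟨1, by norm_num, by norm_num⟩
  let two : I2 := ⟨2, by norm_num, by norm_num⟩
  have hbot : ∀ u : I2, one ≤ u := fun u => u.2.1
  have htop : ∀ u : I2, u ≤ two := fun u => u.2.2
  have hpc : PreconnectedSpace I2 := Subtype.preconnectedSpace isPreconnected_Icc
  have hcpt : CompactSpace I2 := isCompact_iff_compactSpace.1 isCompact_Icc
  let P : I2 → I2 → Z := fun t s => h (pt 1 (Or.inl rfl) t s)
  let N : I2 → I2 → Z := fun t s => h (pt (-1) (Or.inr rfl) t s)
  have hP : Continuous (fun x : I2 × I2 => P x.1 x.2) := hc.comp (continuous_pt 1 (Or.inl rfl))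
  have hN : Continuous (fun x : I2 × I2 => N x.1 x.2) := hc.comp (continuous_pt (-1) (Or.inr rfl))
  have hcP1 : Continuous (fun x : (I2 × I2) × I2 => P x.1.1 x.1.2) := hP.comp continuous_fst
  have hcP2 : Continuous (fun x : (I2 × I2) × I2 => P x.1.1 x.2) :=
    hP.comp ((continuous_fst.comp continuous_fst).prodMk continuous_snd)
  have hcN2 : Continuous (fun x : (I2 × I2) × I2 => N x.1.1 x.2) :=
    hN.comp ((continuous_fst.comp continuous_fst).prodMk continuous_snd)
  have hRA : IsClosed {x : (I2 × I2) × I2 | P x.1.1 x.1.2 = P x.1.1 x.2} := isClosed_eq hcP1 hcP2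
  have hRB : IsClosed {x : (I2 × I2) × I2 | P x.1.1 x.1.2 = N x.1.1 x.2} := isClosed_eq hcP1 hcN2
  obtain ⟨M, hMc, hM1, hM2⟩ := contMax {x : (I2 × I2) × I2 | P x.1.1 x.1.2 = P x.1.1 x.2} hRA
    (fun p => ⟨p.2, rfl⟩)
    (fun p u hpu V hV => lhc h g hc ho hgf 1 (Or.inl rfl) p u hpu V hV)
  obtain ⟨m, hmc, hm1, hm2⟩ := contMin {x : (I2 × I2) × I2 | P x.1.1 x.1.2 = P x.1.1 x.2} hRA
    (fun p => ⟨p.2, rfl⟩)
    (fun p u hpu V hV => lhc h g hc ho hgf 1 (Or.inl rfl) p u hpu V hV)
  obtain ⟨K, hKc, hK1, hK2⟩ := contMax {x : (I2 × I2) × I2 | P x.1.1 x.1.2 = N x.1.1 x.2} hRB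
    (fun p => meets h g hc ho gconn hgf p.1 p.2)
    (fun p u hpu V hV => lhc h g hc ho hgf (-1) (Or.inr rfl) p u hpu V hV)
  have hM1' : ∀ t s, P t s = P t (M (t, s)) := fun t s => hM1 (t, s)
  have hM2' : ∀ t s u, P t s = P t u → u ≤ M (t, s) := fun t s u hu => hM2 (t, s) u hu
  have hm1' : ∀ t s, P t s = P t (m (t, s)) := fun t s => hm1 (t, s)
  have hm2' : ∀ t s u, P t s = P t u → m (t, s) ≤ u := fun t s u hu => hm2 (t, s) u hu
  have hK1' : ∀ t s, P t s = N t (K (t, s)) := fun t s => hK1 (t, s)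
  -- rigidity
  have hrigid : ∀ t, M (t, one) ≤ m (t, two) → M (t, one) = one ∧ m (t, two) = two := by
    intro t ht
    have hmt : Continuous (fun s => m (t, s)) := hmc.comp (Continuous.prodMk_right t)
    have hMt : Continuous (fun s => M (t, s)) := hMc.comp (Continuous.prodMk_right t)
    constructor
    · obtain ⟨u, hu⟩ := mem_range_of_exists_le_of_exists_ge hmt
        (c := M (t, one)) ⟨one, (hm2' t one one rfl).trans (hbot _)⟩ ⟨two, ht⟩
      have hu' : m (t, u) = M (t, one) := hu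
      have e1 : P t u = P t one := by
        rw [hm1' t u, hu', ← hM1']
      have := hm2' t u one e1
      rw [hu'] at this
      exact le_antisymm this (hbot _)
    · obtain ⟨u, hu⟩ := mem_range_of_exists_le_of_exists_ge hMt
        (c := m (t, two)) ⟨one, ht⟩ ⟨two, (htop _).trans (hM2' t two two rfl)⟩
      have hu' : M (t, u) = m (t, two) := hu
      have e1 : P t u = P t two := by
        rw [hM1' t u, hu', ← hm1']
      have := hM2' t u two e1
      rw [hu'] at this
      exact le_antisymm (htop _) this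
  have hlt12 : one < two := by
    show (1:ℝ) < 2
    norm_num
  have hleft : ∀ s u : I2, P one s = P one u → u = s := by
    intro s u hsu
    have := (left_iff h g hc ho hs gconn hgf _ _ rfl rfl).1 hsu
    have e : |1 * u.1| = |1 * s.1| := this
    rw [one_mul, one_mul, abs_of_pos (by linarith [u.2.1]), abs_of_pos (by linarith [s.2.1])] at e
    exact Subtype.ext e
  have hleft' : ∀ s u : I2, P one s = N one u → u = s := by
    intro s u hsu
    have := (left_iff h g hc ho hs gconn hgf _ _ rfl rfl).1 hsu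
    have e : |(-1) * u.1| = |1 * s.1| := this
    rw [neg_one_mul, one_mul, abs_neg, abs_of_pos (by linarith [u.2.1]),
      abs_of_pos (by linarith [s.2.1])] at e
    exact Subtype.ext e
  have hright' : ∀ s u : I2, P two s = N two u → u.1 = 3 - s.1 := by
    intro s u hsu
    have := (right_iff h g hc ho hs gconn hgf _ _ rfl rfl).1 hsu
    have e : q ((-1) * u.1) = q (1 * s.1) := this
    rw [neg_one_mul, one_mul, q_neg (by linarith [u.2.1]), q_pos s.2.1] at e
    linarith
  have hT : {t : I2 | M (t, one) ≤ m (t, two)} = univ := by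
    have c1 : Continuous (fun t => M (t, one)) := hMc.comp (Continuous.prodMk_left one)
    have c2 : Continuous (fun t => m (t, two)) := hmc.comp (Continuous.prodMk_left two)
    apply IsClopen.eq_univ
    · constructor
      · exact isClosed_le c1 c2
      · have : {t : I2 | M (t, one) ≤ m (t, two)} = {t : I2 | M (t, one) < m (t, two)} := by
          ext t
          constructor
          · intro ht
            obtain ⟨e1, e2⟩ := hrigid t ht
            show M (t, one) < m (t, two)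
            rw [e1, e2]; exact hlt12
          · intro ht
            have ht' : M (t, one) < m (t, two) := ht
            exact ht'.le
        rw [this]
        exact isOpen_lt c1 c2
    · refine ⟨one, ?_⟩
      show M (one, one) ≤ m (one, two)
      rw [hleft _ _ (hM1' one one), hleft _ _ (hm1' one two)]
      exact hlt12.le
  have hdist : ∀ t, P t one ≠ P t two := by
    intro t ht
    have h1 : t ∈ {t : I2 | M (t, one) ≤ m (t, two)} := by rw [hT]; trivial
    have h2 := (hrigid t h1).1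
    have h3 := hM2' t one two ht
    rw [h2] at h3
    exact absurd hlt12 (not_lt.2 h3)
  have c1 : Continuous (fun t => K (t, one)) := hKc.comp (Continuous.prodMk_left one)
  have c2 : Continuous (fun t => K (t, two)) := hKc.comp (Continuous.prodMk_left two)
  obtain ⟨t, ht⟩ := intermediate_value_univ₂ (a := one) (b := two) c1 c2
    (by
      show K (one, one) ≤ K (one, two)
      rw [hleft' _ _ (hK1' one one), hleft' _ _ (hK1' one two)]
      exact hlt12.le)
    (by
      show K (two, two) ≤ K (two, one)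
      have e1 : (K (two, two)).1 = 3 - 2 := hright' _ _ (hK1' two two)
      have e2 : (K (two, one)).1 = 3 - 1 := hright' _ _ (hK1' two one)
      show (K (two, two)).1 ≤ (K (two, one)).1
      rw [e1, e2]; norm_num)
  have ht' : K (t, one) = K (t, two) := ht
  apply hdist t
  rw [hK1' t one, hK1' t two, ht']

end

/-- over `[0,2]` the map is MO -/
theorem left_MO (C : Set (Icc (0:ℝ) 3)) (hC : IsClosed C) (hC2 : C ⊆ {y | y.1 ≤ 2}) :
    ∃ (Z : Type) (_ : MetricSpace Z) (_ : CompactSpace Z)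
          (h : ↥(f ⁻¹' C) → Z) (g : Z → ↥C),
          Continuous h ∧ IsOpenMap h ∧ Surjective h ∧
          Continuous g ∧ Surjective g ∧ (∀ y, IsConnected (g ⁻¹' {y})) ∧
          ∀ x : ↥(f ⁻¹' C), ((g (h x) : ↥C) : Icc (0:ℝ) 3) = f x :=
  localMO C hC (fun s => |s|) (fun s => -s)
    continuous_abs continuous_neg
    (fun s h1 h2 => abs_of_pos (by linarith))
    (fun s h1 h2 => by
      have : |s| = -s := abs_of_nonpos (by linarith)
      simp only [this]
      exact ⟨by linarith, by linarith, neg_neg s⟩)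
    (fun s h1 h2 => by
      refine ⟨by linarith, by linarith, ?_⟩
      show |-s| = s
      rw [abs_neg, abs_of_pos (by linarith)])
    (fun y hy s h1 h2 => by
      have : |s| = -s := abs_of_nonpos (by linarith)
      simp only [this]
      exact (mem_XS_neg_left (hC2 hy)).symm)

/-- over `[1,3]` the map is MO -/
theorem right_MO (C : Set (Icc (0:ℝ) 3)) (hC : IsClosed C) (hC2 : C ⊆ {y | 1 ≤ y.1}) :
    ∃ (Z : Type) (_ : MetricSpace Z) (_ : CompactSpace Z)
          (h : ↥(f ⁻¹' C) → Z) (g : Z → ↥C),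
          Continuous h ∧ IsOpenMap h ∧ Surjective h ∧
          Continuous g ∧ Surjective g ∧ (∀ y, IsConnected (g ⁻¹' {y})) ∧
          ∀ x : ↥(f ⁻¹' C), ((g (h x) : ↥C) : Icc (0:ℝ) 3) = f x :=
  localMO C hC q (fun s => s - 3)
    continuous_q (by fun_prop)
    (fun s h1 h2 => q_pos h1)
    (fun s h1 h2 => by
      rw [q_neg h2]
      exact ⟨by linarith, by linarith, by ring⟩)
    (fun s h1 h2 => by
      refine ⟨by linarith, by linarith, ?_⟩
      show q (s - 3) = s
      rw [q_neg (by linarith)]; ring)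
    (fun y hy s h1 h2 => by
      have hy1 : 1 ≤ y.1 := hC2 hy
      rw [q_neg h2]
      unfold XS
      simp only [mem_ofPred_eq]
      rw [q_neg h2, q_pos (show 1 ≤ s + 3 by linarith), abs_of_neg (show s < 0 by linarith),
        abs_of_pos (show 0 < s + 3 by linarith)]
      constructor
      · rintro ⟨k1, k2, k3, k4⟩
        exact ⟨k1, ⟨by linarith, by linarith⟩, fun k5 => absurd k5 (not_lt.2 hy1), k4⟩
      · rintro ⟨k1, k2, k3, k4⟩
        exact ⟨k1, ⟨by linarith, by linarith⟩, fun k5 => absurd k5 (not_lt.2 hy1), k4⟩)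

end Pool.Agent.Helper43.Own.Glue
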